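import Pool.Agent.Run7.h774.AD.Base

/-!
Piece DELC of project AD (helper131), by helper774.
-/

set_option autoImplicit false

namespace Pool.Agent.Run7.h774.AD

open Run7.h131.AD

theorem t_DELC (h1 : S_RNG) (h2 : S_DCL) : S_DELC := by
  intro s w N M hadd d hd
  obtain ⟨S, hS, hC, hw, hinv⟩ := h1.1 s w
  obtain ⟨-, -, hD, -⟩ := h2 s w N M hadd
  have hmem : ∀ g : PS, g ∈ S ↔ g ∈ OQ w := fun g => by rw [← hS]; rfl
  have hA : ∀ g ∈ S, D g ∈ S := fun g hg => (hmem _).2 (hD g ((hmem _).1 hg))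
  have hd' : PtDer (S : Set PS) d := by rw [hS]; exact hd
  refine ⟨fun g hg h hh => del_add hA hd' ((hmem _).2 hg) ((hmem _).2 hh),
    fun g hg h hh => del_mul hC hA hd' ((hmem _).2 hg) ((hmem _).2 hh),
    fun x => del_C hd x, fun x g hg => ?_, fun g => del_D d g⟩
  rw [del_mul hC hA hd' (hC x) ((hmem _).2 hg), del_C hd]
  ring

end Pool.Agent.Run7.h774.AD
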