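import Pool.Agent.Run7.h774.AD.Pw

/-!
Piece PTT of project AD (helper131), by helper774.
-/

set_option autoImplicit false

namespace Pool.Agent.Run7.h774.AD

open Run7.h131.AD

theorem t_PTT (hz : S_ZZZ) (h1 : S_RNG) (h2 : S_DCL) (hLP : S_LP) : S_PTT := by
  intro s w N M hadd p hg P hP hP0
  obtain ⟨S, hS, -⟩ := op_of h1 h2 hadd hg
  obtain ⟨r, hr, e⟩ := Dp_poly hz hLP hS hP
  rw [hP0, Dn_zero] at e
  refine ⟨-ev r, ?_, ?_⟩
  · exact hS.ev _ (S.neg_mem hr)|> fun h => by
      have : ev (-r) = -ev r := by simp [ev]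
      rwa [this] at h
  · have h3 := congrArg ev e
    have h4 : ev (∑ i, MvPolynomial.aeval w (MvPolynomial.pderiv i P) * D^[p] (w i)) =
        ∑ i, MvPolynomial.eval (c0 w) (MvPolynomial.pderiv i P) * ev (D^[p] (w i)) := by
      have : ∀ g : PS, ev g = PowerSeries.constantCoeff g := fun _ => rfl
      rw [this, map_sum]
      refine Finset.sum_congr rfl fun i _ => ?_
      rw [← this, ev_mul, ev_aeval]
    rw [ev_add, ev_mul, ev_C, h4] at h3
    have h5 : ev 0 = 0 := by simp [ev]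
    rw [h5] at h3
    have h6 : ∑ j, cp p w j * MvPolynomial.eval (c0 w) (MvPolynomial.pderiv j P) =
        ∑ i, MvPolynomial.eval (c0 w) (MvPolynomial.pderiv i P) * ev (D^[p] (w i)) :=
      Finset.sum_congr rfl fun i _ => by rw [cp, mul_comm]
    rw [h6]
    linarith

end Pool.Agent.Run7.h774.AD
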