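import Pool.Agent.Run7.h774.AD.Pw

/-!
Piece TH of project AD (helper131), by helper774.
-/

set_option autoImplicit false

namespace Pool.Agent.Run7.h774.AD

open Run7.h131.AD

/-- the algebra of both parts -/
lemma th_alg {s : ℕ} {w : Fin s → PS} {N M : Fin s → MvPolynomial (Fin s ⊕ Fin s) ℚ}
    {f : PS} {P Q : MvPolynomial (Fin s) ℚ} (hQ : MvPolynomial.eval (c0 w) Q ≠ 0) (c : Fin s → ℚ)
    (x : PS) (hx : MvPolynomial.aeval w Q * x = ∑ i, (MvPolynomial.aeval w (MvPolynomial.pderiv i P) -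
      f * MvPolynomial.aeval w (MvPolynomial.pderiv i Q)) * ∑ j, PowerSeries.C (c j) * vv w N M i j) :
    x = ∑ j, PowerSeries.C (c j) * th w N M f P Q j := by
  have hu : MvPolynomial.aeval w Q * (MvPolynomial.aeval w Q)⁻¹ = 1 := by
    refine PowerSeries.mul_inv_cancel _ ?_
    have := ev_aeval w Q
    rw [ev] at this
    rw [this]; exact hQ
  have h1 : x = (MvPolynomial.aeval w Q * x) * (MvPolynomial.aeval w Q)⁻¹ := by
    rw [mul_comm (MvPolynomial.aeval w Q) x, mul_assoc, hu, mul_one]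
  rw [h1, hx]
  simp only [th, Finset.mul_sum, Finset.sum_mul]
  rw [Finset.sum_comm]
  refine Finset.sum_congr rfl fun j _ => Finset.sum_congr rfl fun i _ => ?_
  ring

theorem t_TH (hz : S_ZZZ) (h1 : S_RNG) (hV : S_VID) (h2 : S_DCL) (hLP : S_LP) (hPMW : S_PMW) (_ : S_DELC) :
    S_TH := by
  intro s w N M hadd f P Q hQ hf
  constructor
  · intro d hd
    obtain ⟨A, hA, hC, hw, hinv⟩ := h1.1 s w
    obtain ⟨-, hvv, hD, -⟩ := h2 s w N M hadd
    have hmem : ∀ g : PS, g ∈ A ↔ g ∈ OQ w := fun g => by rw [← hA]; rfl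
    have hDA : ∀ g ∈ A, D g ∈ A := fun g hg => (hmem _).2 (hD g ((hmem _).1 hg))
    have hd' : PtDer (A : Set PS) d := by rw [hA]; exact hd
    have hfA : f ∈ A := (hmem _).2 ⟨P, Q, hQ, hf⟩
    have hdw : ∀ i, del d (w i) = ∑ j, PowerSeries.C (d (w j)) * vv w N M i j :=
      hV s w N M hadd A hC (fun i k => Dn_mem (A := (A : Set PS)) hDA k _ (hw i)) d hd'
    obtain ⟨hPA, eP⟩ := del_poly hC hw hDA hd' P
    obtain ⟨hQA, eQ⟩ := del_poly hC hw hDA hd' Q
    refine th_alg hQ (fun j => d (w j)) _ ?_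
    have e := congrArg (del d) hf
    rw [del_mul hC hDA hd' hQA hfA, eP, eQ] at e
    have e2 : MvPolynomial.aeval w Q * del d f =
        ∑ i, MvPolynomial.aeval w (MvPolynomial.pderiv i P) * del d (w i) -
        f * ∑ i, MvPolynomial.aeval w (MvPolynomial.pderiv i Q) * del d (w i) := by
      rw [← e]; ring
    rw [e2, Finset.mul_sum, ← Finset.sum_sub_distrib]
    refine Finset.sum_congr rfl fun i _ => ?_
    rw [hdw i]; ring
  · intro p hg hP hQp hQu
    obtain ⟨S, hS, hvS⟩ := op_of h1 h2 hadd hg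
    have hmem : ∀ g : PS, g ∈ S ↔ g ∈ OP p w := fun g => by rw [← hS.eq]; rfl
    have hfS : f ∈ S := (hmem _).2 ⟨P, Q, hP, hQp, hQu, hf⟩
    have hPS := aeval_mem hS hP
    have hQS := aeval_mem hS hQp
    have hpdS : ∀ H : MvPolynomial (Fin s) ℚ, PI p H → ∀ i, MvPolynomial.aeval w (MvPolynomial.pderiv i H) ∈ S :=
      fun H hH i => aeval_mem hS (hz.2.2.2.2.2.1 p (Fin s) H i hS.prime hH)
    obtain ⟨r, hr, e⟩ := hLP PS D S p hS.prime D_add D_mul hS.D _ hQS _ hfS
    obtain ⟨rP, hrP, eP⟩ := Dp_poly hz hLP hS hP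
    obtain ⟨rQ, hrQ, eQ⟩ := Dp_poly hz hLP hS hQp
    have hW : ∀ i, ∃ h, h ∈ S ∧ D^[p] (w i) = ∑ j, PowerSeries.C (cp p w j) * vv w N M i j +
        PowerSeries.C (p : ℚ) * h := by
      intro i
      obtain ⟨h, hh, e⟩ := hPMW s w N M hadd p hg i
      exact ⟨h, (hmem _).2 hh, by rw [← e]; ring⟩
    choose h hhS hhe using hW
    have hpC : (PowerSeries.C (p : ℚ) : PS) = (p : PS) := by simp
    have hQe : MvPolynomial.aeval w Q * (MvPolynomial.aeval w Q)⁻¹ = 1 := by
      refine PowerSeries.mul_inv_cancel _ ?_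
      have := ev_aeval w Q
      rw [ev] at this
      rw [this]; exact hQ
    have hQi : (MvPolynomial.aeval w Q)⁻¹ ∈ S := hS.inv _ hQS (by rw [ev_aeval]; exact hQu)
    rw [← hpC, hf, eP, eQ] at e
    -- the error term
    set E : PS := rP - f * rQ - r + ∑ i, (MvPolynomial.aeval w (MvPolynomial.pderiv i P) -
      f * MvPolynomial.aeval w (MvPolynomial.pderiv i Q)) * h i with hE
    have hES : E ∈ S := by
      refine S.add_mem (S.sub_mem (S.sub_mem hrP (S.mul_mem hfS hrQ)) hr) (S.sum_mem fun i _ => ?_)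
      exact S.mul_mem (S.sub_mem (hpdS P hP i) (S.mul_mem hfS (hpdS Q hQp i))) (hhS i)
    refine ⟨(MvPolynomial.aeval w Q)⁻¹ * E, (hmem _).1 (S.mul_mem hQi hES), ?_⟩
    have key : MvPolynomial.aeval w Q * (D^[p] f - PowerSeries.C (p : ℚ) * ((MvPolynomial.aeval w Q)⁻¹ * E)) =
        ∑ i, (MvPolynomial.aeval w (MvPolynomial.pderiv i P) -
          f * MvPolynomial.aeval w (MvPolynomial.pderiv i Q)) *
          ∑ j, PowerSeries.C (cp p w j) * vv w N M i j := by
      have e3 : MvPolynomial.aeval w Q * (D^[p] f - PowerSeries.C (p : ℚ) * ((MvPolynomial.aeval w Q)⁻¹ * E)) =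
          MvPolynomial.aeval w Q * D^[p] f - PowerSeries.C (p : ℚ) *
            ((MvPolynomial.aeval w Q * (MvPolynomial.aeval w Q)⁻¹) * E) := by ring
      rw [e3, hQe, one_mul]
      have e4 : MvPolynomial.aeval w Q * D^[p] f =
          (∑ i, MvPolynomial.aeval w (MvPolynomial.pderiv i P) * D^[p] (w i)) -
          f * (∑ i, MvPolynomial.aeval w (MvPolynomial.pderiv i Q) * D^[p] (w i)) +
          PowerSeries.C (p : ℚ) * (rP - f * rQ - r) := by
        linear_combination -e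
      rw [e4, Finset.mul_sum, ← Finset.sum_sub_distrib, hE]
      have e5 : ∑ i, (MvPolynomial.aeval w (MvPolynomial.pderiv i P) * D^[p] (w i) -
            f * (MvPolynomial.aeval w (MvPolynomial.pderiv i Q) * D^[p] (w i))) =
          ∑ i, (MvPolynomial.aeval w (MvPolynomial.pderiv i P) -
            f * MvPolynomial.aeval w (MvPolynomial.pderiv i Q)) *
            ∑ j, PowerSeries.C (cp p w j) * vv w N M i j +
          PowerSeries.C (p : ℚ) * ∑ i, (MvPolynomial.aeval w (MvPolynomial.pderiv i P) -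
            f * MvPolynomial.aeval w (MvPolynomial.pderiv i Q)) * h i := by
        rw [Finset.mul_sum, ← Finset.sum_add_distrib]
        refine Finset.sum_congr rfl fun i _ => ?_
        rw [hhe i]; ring
      rw [e5]; ring
    have := th_alg (N := N) (M := M) (P := P) (f := f) hQ (fun j => cp p w j) _ key
    rw [← this]; ring

end Pool.Agent.Run7.h774.AD
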