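import Pool.Agent.Run7.h131.AD.Iface

/-!
Pieces of project AD (helper131), by helper774: basic facts on `D`, `del` and the operators `D^p` modulo `p`.
-/

set_option autoImplicit false

namespace Pool.Agent.Run7.h774.AD

open Run7.h131.AD

lemma D_add (a b : PS) : D (a + b) = D a + D b := by simp [D]

lemma D_mul (a b : PS) : D (a * b) = a * D b + b * D a := by
  unfold D; rw [Derivation.leibniz]; simp [smul_eq_mul]

lemma D_C (x : ℚ) : D (PowerSeries.C x) = 0 := by
  unfold D; ext n; simp

lemma coeff_D (g : PS) (n : ℕ) : PowerSeries.coeff n (D g) = PowerSeries.coeff (n + 1) g * (n + 1) := by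
  unfold D; simp [PowerSeries.coeff_derivative]

lemma ev_iter (k : ℕ) : ∀ g : PS, ev (D^[k] g) = (k.factorial : ℚ) * PowerSeries.coeff k g := by
  induction k with
  | zero => intro g; simp [ev]
  | succ k ih =>
    intro g
    rw [Function.iterate_succ_apply, ih, coeff_D, Nat.factorial_succ]; push_cast; ring

lemma Dn_add (n : ℕ) : ∀ a b : PS, D^[n] (a + b) = D^[n] a + D^[n] b := by
  induction n with
  | zero => intro a b; rfl
  | succ n ih => intro a b; simp only [Function.iterate_succ_apply, D_add, ih]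

lemma Dn_zero (n : ℕ) : D^[n] (0 : PS) = 0 := by
  have := Dn_add n 0 0
  simpa using this

lemma Dn_sum {ι : Type} (n : ℕ) (s : Finset ι) (F : ι → PS) : D^[n] (∑ i ∈ s, F i) = ∑ i ∈ s, D^[n] (F i) := by
  classical
  induction s using Finset.induction_on with
  | empty => simp [Dn_zero]
  | insert a s ha ih => rw [Finset.sum_insert ha, Finset.sum_insert ha, Dn_add, ih]

lemma D_sum {ι : Type} (s : Finset ι) (F : ι → PS) : D (∑ i ∈ s, F i) = ∑ i ∈ s, D (F i) := Dn_sum 1 s F

lemma D_nsmul (n : ℕ) (a : PS) : D (n • a) = n • D a := by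
  unfold D; simp

lemma D_mul' (a b : PS) : D (a * b) = D a * b + a * D b := by
  rw [D_mul]; ring

/-- Leibniz' formula -/
lemma leib (n : ℕ) (a b : PS) :
    D^[n] (a * b) = ∑ ij ∈ Finset.HasAntidiagonal.antidiagonal n, (n.choose ij.1) • (D^[ij.1] a * D^[ij.2] b) := by
  induction n with
  | zero => simp
  | succ n ih =>
    rw [Function.iterate_succ_apply', ih, D_sum]
    rw [Finset.sum_antidiagonal_choose_succ_nsmul (fun i j => D^[i] a * D^[j] b) n]
    rw [← Finset.sum_add_distrib]
    refine Finset.sum_congr rfl fun ij hij => ?_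
    have h2 : n.choose ij.2 = n.choose ij.1 := by
      have := Finset.HasAntidiagonal.mem_antidiagonal.1 hij
      rw [← this]; rw [add_comm ij.1 ij.2]; exact Nat.choose_symm_add.symm ▸ by rw [add_comm]
    rw [h2, D_nsmul, D_mul', ← nsmul_add]
    simp only [Function.iterate_succ_apply']
    rw [add_comm]

lemma ev_C (x : ℚ) : ev (PowerSeries.C x) = x := by simp [ev]

lemma ev_mul (a b : PS) : ev (a * b) = ev a * ev b := by simp [ev]

lemma ev_add (a b : PS) : ev (a + b) = ev a + ev b := by simp [ev]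

lemma ev_aeval {s : ℕ} (w : Fin s → PS) (Q : MvPolynomial (Fin s) ℚ) :
    ev (MvPolynomial.aeval w Q) = MvPolynomial.eval (c0 w) Q := by
  induction Q using MvPolynomial.induction_on with
  | C a =>
    simp only [MvPolynomial.eval_C, MvPolynomial.algHom_C]
    exact ev_C a
  | add p q hp hq => rw [map_add, map_add, ev_add, hp, hq]
  | mul_X p i hp => rw [map_mul, map_mul, ev_mul, hp]; simp [c0]

section der
variable {A : Set PS} {d : PS → ℚ} (hd : PtDer A d)
include hd

lemma d_zero : d 0 = 0 := by simpa using hd.const 0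

lemma d_Cmul {g : PS} (x : ℚ) (hx : PowerSeries.C x ∈ A) (hg : g ∈ A) : d (PowerSeries.C x * g) = x * d g := by
  rw [hd.mul _ hx _ hg, hd.const, ev_C]; ring
end der

lemma d_sum {A : Subring PS} {d : PS → ℚ} (hd : PtDer (A : Set PS) d) {ι : Type} (s : Finset ι) (F : ι → PS)
    (hF : ∀ i ∈ s, F i ∈ A) : d (∑ i ∈ s, F i) = ∑ i ∈ s, d (F i) := by
  classical
  induction s using Finset.induction_on with
  | empty => simpa using hd.const 0
  | insert a s ha ih =>
    rw [Finset.sum_insert ha, Finset.sum_insert ha,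
      hd.add _ (hF a (Finset.mem_insert_self _ _)) _
        (A.sum_mem fun i hi => hF i (Finset.mem_insert_of_mem hi)),
      ih fun i hi => hF i (Finset.mem_insert_of_mem hi)]

lemma Dn_mem {A : Set PS} (hA : ∀ g ∈ A, D g ∈ A) (n : ℕ) : ∀ g ∈ A, D^[n] g ∈ A := by
  induction n with
  | zero => intro g hg; exact hg
  | succ n ih => intro g hg; rw [Function.iterate_succ_apply]; exact ih _ (hA g hg)

lemma Dn_C (n : ℕ) (x : ℚ) : D^[n + 1] (PowerSeries.C x) = 0 := by
  rw [Function.iterate_succ_apply, D_C, Dn_zero]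

lemma coeff_del (d : PS → ℚ) (g : PS) (n : ℕ) :
    PowerSeries.coeff n (del d g) = d (D^[n] g) / (n.factorial : ℚ) := by
  simp [del]

/-- `del d` is a derivation -/
lemma del_mul {A : Subring PS} (hC : ∀ x : ℚ, PowerSeries.C x ∈ A) (hA : ∀ g ∈ A, D g ∈ A) {d : PS → ℚ}
    (hd : PtDer (A : Set PS) d) {g h : PS} (hg : g ∈ A) (hh : h ∈ A) :
    del d (g * h) = g * del d h + h * del d g := by
  have hgn : ∀ n, D^[n] g ∈ A := fun n => Dn_mem (A := (A : Set PS)) hA n g hg
  have hhn : ∀ n, D^[n] h ∈ A := fun n => Dn_mem (A := (A : Set PS)) hA n h hh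
  ext n
  rw [coeff_del, leib, d_sum hd _ _ fun ij _ => A.nsmul_mem (A.mul_mem (hgn _) (hhn _)) _, map_add,
    PowerSeries.coeff_mul, mul_comm h, PowerSeries.coeff_mul, ← Finset.sum_add_distrib, Finset.sum_div]
  refine Finset.sum_congr rfl fun ij hij => ?_
  have hn : ij.1 + ij.2 = n := Finset.HasAntidiagonal.mem_antidiagonal.1 hij
  have h1 : (n.choose ij.1) • (D^[ij.1] g * D^[ij.2] h) =
      PowerSeries.C ((n.choose ij.1 : ℕ) : ℚ) * (D^[ij.1] g * D^[ij.2] h) := by
    rw [nsmul_eq_mul]; simp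
  rw [h1, d_Cmul hd _ (hC _) (A.mul_mem (hgn _) (hhn _)), hd.mul _ (hgn _) _ (hhn _), ev_iter, ev_iter,
    coeff_del, coeff_del]
  have h2 : ((n.choose ij.1 : ℕ) : ℚ) = (n.factorial : ℚ) / ((ij.1.factorial : ℚ) * (ij.2.factorial : ℚ)) := by
    rw [← hn]
    rw [eq_div_iff (by positivity)]
    have := Nat.add_choose_mul_factorial_mul_factorial ij.1 ij.2
    rw [show (ij.1 + ij.2).choose ij.2 = (ij.1 + ij.2).choose ij.1 from Nat.choose_symm_add.symm] at this
    exact_mod_cast (by linarith : (ij.1 + ij.2).choose ij.1 * (ij.1.factorial * ij.2.factorial) = (ij.1 + ij.2).factorial)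
  rw [h2]
  have ha : (ij.1.factorial : ℚ) ≠ 0 := by positivity
  have hb : (ij.2.factorial : ℚ) ≠ 0 := by positivity
  have hc : (n.factorial : ℚ) ≠ 0 := by positivity
  field_simp

lemma del_add {A : Subring PS} (hA : ∀ g ∈ A, D g ∈ A) {d : PS → ℚ}
    (hd : PtDer (A : Set PS) d) {g h : PS} (hg : g ∈ A) (hh : h ∈ A) :
    del d (g + h) = del d g + del d h := by
  ext n
  rw [coeff_del, Dn_add, map_add, coeff_del, coeff_del,
    hd.add _ (Dn_mem (A := (A : Set PS)) hA n g hg) _ (Dn_mem (A := (A : Set PS)) hA n h hh)]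
  ring

lemma del_C {A : Set PS} {d : PS → ℚ} (hd : PtDer A d) (x : ℚ) : del d (PowerSeries.C x) = 0 := by
  ext n
  rw [coeff_del]
  cases n with
  | zero => simp [hd.const x]
  | succ n => rw [Dn_C, d_zero hd]; simp

lemma del_D (d : PS → ℚ) (g : PS) : del d (D g) = D (del d g) := by
  ext n
  rw [coeff_del, coeff_D, coeff_del, ← Function.iterate_succ_apply, Nat.factorial_succ]
  have hc : (n.factorial : ℚ) ≠ 0 := by positivity
  have hc' : ((n : ℚ) + 1) ≠ 0 := by positivity
  push_cast
  field_simp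

end Pool.Agent.Run7.h774.AD
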