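import Pool.Agent.Run7.h774.AD.Base

/-!
Pieces of project AD (helper131), by helper774: `D^p` of a polynomial in `w`, modulo `p O_p`.
-/

set_option autoImplicit false

namespace Pool.Agent.Run7.h774.AD

open Run7.h131.AD

/-- `p`-integral polynomials are generated by constants and variables -/
lemma pi_mem {p : ℕ} {σ : Type} (K : Subsemiring (MvPolynomial σ ℚ)) (hC : ∀ x, ZI p x → MvPolynomial.C x ∈ K)
    (hX : ∀ i, MvPolynomial.X i ∈ K) {H : MvPolynomial σ ℚ} (hH : PI p H) : H ∈ K := by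
  rw [H.as_sum]
  refine K.sum_mem fun m _ => ?_
  rw [MvPolynomial.monomial_eq]
  refine K.mul_mem (hC _ (hH m)) ?_
  exact K.prod_mem fun i _ => K.pow_mem (hX i) _

/-- the facts on `O_p` that are used -/
structure Op (p : ℕ) {s : ℕ} (w : Fin s → PS) (S : Subring PS) : Prop where
  prime : p.Prime
  eq : (S : Set PS) = OP p w
  C : ∀ x : ℚ, ZI p x → PowerSeries.C x ∈ S
  w : ∀ i, w i ∈ S
  ev : ∀ g ∈ S, ZI p (ev g)
  inv : ∀ g ∈ S, ZU p (Run7.h131.AD.ev g) → g⁻¹ ∈ S
  D : ∀ g ∈ S, D g ∈ S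

lemma op_of (h1 : S_RNG) (h2 : S_DCL) {s : ℕ} {w : Fin s → PS} {N M : Fin s → MvPolynomial (Fin s ⊕ Fin s) ℚ}
    (hadd : AddThm w N M) {p : ℕ} (hg : Good p w N M) :
    ∃ S : Subring PS, Op p w S ∧ ∀ i j, vv w N M i j ∈ S := by
  obtain ⟨S, hS, hC, hw, hev, hOQ, hinv⟩ := h1.2 p s w hg.prime hg.c
  obtain ⟨-, -, -, hD⟩ := h2 s w N M hadd
  obtain ⟨hv, hD⟩ := hD p hg
  have hmem : ∀ g : PS, g ∈ S ↔ g ∈ OP p w := fun g => by rw [← hS]; rfl
  exact ⟨S, ⟨hg.prime, hS, hC, hw, hev, hinv, fun g h => (hmem _).2 (hD g ((hmem _).1 h))⟩,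
    fun i j => (hmem _).2 (hv i j)⟩

lemma aeval_mem {p : ℕ} {s : ℕ} {w : Fin s → PS} {S : Subring PS} (hS : Op p w S) {H : MvPolynomial (Fin s) ℚ}
    (hH : PI p H) : MvPolynomial.aeval w H ∈ S := by
  have := pi_mem (p := p) ((S.comap (MvPolynomial.aeval w : MvPolynomial (Fin s) ℚ →ₐ[ℚ] PS).toRingHom).toSubsemiring)
    (fun x hx => ?_) (fun i => ?_) hH
  · exact this
  · change MvPolynomial.aeval w (MvPolynomial.C x) ∈ S
    rw [MvPolynomial.algHom_C]
    exact hS.C x hx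
  · change MvPolynomial.aeval w (MvPolynomial.X i) ∈ S
    rw [MvPolynomial.aeval_X]
    exact hS.w i

lemma zi_one (p : ℕ) (hp : p.Prime) : ZI p 1 := ⟨1, 1, by
  intro h
  have := Int.natCast_dvd_natCast.1 (by simpa using h : (p : ℤ) ∣ ((1 : ℕ) : ℤ))
  exact hp.one_lt.ne' (Nat.dvd_one.1 this), by simp⟩

lemma zi_zero (p : ℕ) (hp : p.Prime) : ZI p 0 := by
  obtain ⟨a, b, hb, -⟩ := zi_one p hp
  exact ⟨0, b, hb, by simp⟩

/-- **`D^p(H(w)) ≡ ∑_i (∂_i H)(w) D^p w_i` modulo `p O_p`** -/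
theorem Dp_poly (hz : S_ZZZ) (hLP : S_LP) {p : ℕ} {s : ℕ} {w : Fin s → PS} {S : Subring PS} (hS : Op p w S)
    {H : MvPolynomial (Fin s) ℚ} (hH : PI p H) : ∃ r ∈ S, D^[p] (MvPolynomial.aeval w H) =
      ∑ i, MvPolynomial.aeval w (MvPolynomial.pderiv i H) * D^[p] (w i) + PowerSeries.C (p : ℚ) * r := by
  obtain ⟨T, hT, hTC, hTX⟩ := hz.2.2.2.2.1 p (Fin s) hS.prime
  have hTm : ∀ H : MvPolynomial (Fin s) ℚ, H ∈ T ↔ PI p H := fun H => by
    rw [← SetLike.mem_coe, hT]; rfl
  have hpC : (PowerSeries.C (p : ℚ) : PS) = (p : PS) := by simp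
  have hp1 : 1 ≤ p := hS.prime.one_lt.le
  have hDC : ∀ x : ℚ, D^[p] (PowerSeries.C x) = 0 := by
    intro x
    obtain ⟨n, rfl⟩ : ∃ n, p = n + 1 := ⟨p - 1, by omega⟩
    exact Dn_C n x
  let K : Subsemiring (MvPolynomial (Fin s) ℚ) :=
    { carrier := {H | H ∈ T ∧ ∃ r ∈ S, D^[p] (MvPolynomial.aeval w H) =
        ∑ i, MvPolynomial.aeval w (MvPolynomial.pderiv i H) * D^[p] (w i) + PowerSeries.C (p : ℚ) * r}
      mul_mem' := by
        rintro a b ⟨ha, r1, hr1, e1⟩ ⟨hb, r2, hr2, e2⟩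
        have ha' := aeval_mem hS ((hTm _).1 ha)
        have hb' := aeval_mem hS ((hTm _).1 hb)
        obtain ⟨r, hr, e⟩ := hLP PS D S p hS.prime D_add D_mul hS.D _ ha' _ hb'
        refine ⟨T.mul_mem ha hb, MvPolynomial.aeval w a * r2 + MvPolynomial.aeval w b * r1 + r,
          S.add_mem (S.add_mem (S.mul_mem ha' hr2) (S.mul_mem hb' hr1)) hr, ?_⟩
        rw [map_mul, e, e1, e2, ← hpC]
        have : ∀ i, MvPolynomial.aeval w (MvPolynomial.pderiv i (a * b)) * D^[p] (w i) =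
            MvPolynomial.aeval w a * (MvPolynomial.aeval w (MvPolynomial.pderiv i b) * D^[p] (w i)) +
            MvPolynomial.aeval w b * (MvPolynomial.aeval w (MvPolynomial.pderiv i a) * D^[p] (w i)) := by
          intro i
          rw [Derivation.leibniz]
          simp only [smul_eq_mul, map_add, map_mul]
          ring
        simp only [this]
        rw [Finset.sum_add_distrib, ← Finset.mul_sum, ← Finset.mul_sum]
        ring
      one_mem' := by
        refine ⟨T.one_mem, 0, S.zero_mem, ?_⟩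
        have h1 : (1 : PS) = PowerSeries.C (1 : ℚ) := by simp
        rw [map_one, h1, hDC]
        simp
      add_mem' := by
        rintro a b ⟨ha, r1, hr1, e1⟩ ⟨hb, r2, hr2, e2⟩
        refine ⟨T.add_mem ha hb, r1 + r2, S.add_mem hr1 hr2, ?_⟩
        rw [map_add, Dn_add, e1, e2]
        simp only [map_add, add_mul, Finset.sum_add_distrib]
        ring
      zero_mem' := by
        refine ⟨T.zero_mem, 0, S.zero_mem, ?_⟩
        rw [map_zero, Dn_zero]; simp }
  have : H ∈ K := by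
    refine pi_mem (p := p) K (fun x hx => ?_) (fun i => ?_) hH
    · refine ⟨hTC x hx, 0, S.zero_mem, ?_⟩
      rw [MvPolynomial.algHom_C]
      have : (algebraMap ℚ PS) x = PowerSeries.C x := rfl
      rw [this, hDC]
      simp
    · refine ⟨hTX i, 0, S.zero_mem, ?_⟩
      rw [MvPolynomial.aeval_X]
      have : ∀ j, MvPolynomial.aeval w (MvPolynomial.pderiv j (MvPolynomial.X i : MvPolynomial (Fin s) ℚ)) *
          D^[p] (w j) = if j = i then D^[p] (w j) else 0 := by
        intro j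
        rw [MvPolynomial.pderiv_X]
        by_cases h : j = i
        · subst h; simp
        · simp [h, Ne.symm h]
      simp only [this]
      simp
  exact this.2

/-- **`del d (H(w)) = ∑_i (∂_i H)(w) del d (w_i)`** -/
theorem del_poly {s : ℕ} {w : Fin s → PS} {A : Subring PS} (hC : ∀ x : ℚ, PowerSeries.C x ∈ A)
    (hw : ∀ i, w i ∈ A) (hD : ∀ g ∈ A, D g ∈ A) {d : PS → ℚ} (hd : PtDer (A : Set PS) d)
    (H : MvPolynomial (Fin s) ℚ) : MvPolynomial.aeval w H ∈ A ∧ del d (MvPolynomial.aeval w H) =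
      ∑ i, MvPolynomial.aeval w (MvPolynomial.pderiv i H) * del d (w i) := by
  induction H using MvPolynomial.induction_on with
  | C a =>
    rw [MvPolynomial.algHom_C]
    have : (algebraMap ℚ PS) a = PowerSeries.C a := rfl
    rw [this]
    refine ⟨hC a, ?_⟩
    rw [del_C hd]; simp
  | add p q hp hq =>
    rw [map_add]
    refine ⟨A.add_mem hp.1 hq.1, ?_⟩
    rw [del_add hD hd hp.1 hq.1, hp.2, hq.2]
    simp only [map_add, add_mul, Finset.sum_add_distrib]
  | mul_X p i hp =>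
    rw [map_mul, MvPolynomial.aeval_X]
    refine ⟨A.mul_mem hp.1 (hw i), ?_⟩
    rw [del_mul hC hD hd hp.1 (hw i), hp.2]
    have : ∀ j, MvPolynomial.aeval w (MvPolynomial.pderiv j (p * MvPolynomial.X i)) * del d (w j) =
        w i * (MvPolynomial.aeval w (MvPolynomial.pderiv j p) * del d (w j)) +
        (if j = i then MvPolynomial.aeval w p * del d (w j) else 0) := by
      intro j
      rw [Derivation.leibniz, MvPolynomial.pderiv_X]
      simp only [smul_eq_mul, map_add, map_mul, MvPolynomial.aeval_X]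
      by_cases h : j = i
      · subst h; simp; ring
      · have h' : (Pi.single j (1 : MvPolynomial (Fin s) ℚ) : Fin s → MvPolynomial (Fin s) ℚ) i = 0 := by
          simp [Ne.symm h]
        rw [h']; simp [h]; ring
    simp only [this]
    rw [Finset.sum_add_distrib, ← Finset.mul_sum]
    simp
    ring

end Pool.Agent.Run7.h774.AD
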